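import Pool.Agent.Helpers.H4_Ex3

set_option autoImplicit false

namespace Pool.Agent.Results.MP_3d715f_co.FUniversal

universe u

/-- `B` is the set of blocks of a `2-(|V|, k, 1)` design with point set `V`: all blocks have `k`
points and any two distinct points lie in exactly one block. -/
structure IsSteiner2Design {V : Type*} (k : ℕ) (B : Finset (Finset V)) : Prop where
  block_card : ∀ b ∈ B, b.card = k
  pair : ∀ x y : V, x ≠ y → ∃! b : Finset V, b ∈ B ∧ x ∈ b ∧ y ∈ b

/-- The automorphism group: all permutations of the points that map the set of blocks onto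
itself. -/
def autGroup {V : Type*} (B : Finset (Finset V)) : Subgroup (Equiv.Perm V) where
  carrier := {σ | ∀ b : Finset V, b ∈ B ↔ b.map σ.toEmbedding ∈ B}
  one_mem' := by
    intro b
    have : b.map (1 : Equiv.Perm V).toEmbedding = b := Finset.map_refl
    rw [this]
  mul_mem' := by
    intro σ τ hσ hτ b
    have : b.map (σ * τ).toEmbedding = (b.map τ.toEmbedding).map σ.toEmbedding := by
      rw [Finset.map_map]; rfl
    rw [this, hτ b]
    exact hσ _
  inv_mem' := by
    intro σ hσ b
    have : (b.map (σ⁻¹).toEmbedding).map σ.toEmbedding = b := by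
      rw [Finset.map_map]
      have h : (σ⁻¹).toEmbedding.trans σ.toEmbedding = Function.Embedding.refl V := by
        ext x; exact σ.apply_symm_apply x
      rw [h, Finset.map_refl]
    rw [hσ (b.map (σ⁻¹).toEmbedding), this]

/-- For every `k ≥ 3` and every finite group `G` there is a `2-(v, k, 1)` design, `v ≥ k`, whose
full automorphism group is isomorphic to `G`. -/
theorem result : ∀ k : ℕ, 3 ≤ k → ∀ (G : Type u) [Group G] [Finite G],
    ∃ (v : ℕ) (B : Finset (Finset (Fin v))), k ≤ v ∧ IsSteiner2Design k B ∧
      Nonempty (G ≃* autGroup B) := by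
  intro k hk G _ _
  obtain ⟨v, B, hv, h1, h2, φ, h3, h4⟩ := H4DF.exact_aut k hk G
  refine ⟨v, B, hv, ⟨h1, h2⟩, ⟨?_⟩⟩
  have h5 : φ.range = autGroup B := by
    ext σ
    exact h4 σ
  exact (MonoidHom.ofInjective h3).trans (MulEquiv.subgroupCongr h5)

end Pool.Agent.Results.MP_3d715f_co.FUniversal
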