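import Pool.Agent.Helpers.H4_DF6

set_option autoImplicit false

namespace Pool.Agent.Results.MP_3d715f_co.Subgroup

universe u

/-- `B` is the set of blocks of a `2-(|V|, k, 1)` design with point set `V`: all blocks have `k`
points and any two distinct points lie in exactly one block. -/
structure IsSteiner2Design {V : Type*} (k : ℕ) (B : Finset (Finset V)) : Prop where
  block_card : ∀ b ∈ B, b.card = k
  pair : ∀ x y : V, x ≠ y → ∃! b : Finset V, b ∈ B ∧ x ∈ b ∧ y ∈ b

/-- For every `k ≥ 3` and every finite group `G` there is a `2-(v, k, 1)` design, `v ≥ k`, whose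
automorphism group contains a subgroup isomorphic to `G`. -/
theorem result : ∀ k : ℕ, 3 ≤ k → ∀ (G : Type u) [Group G] [Finite G],
    ∃ (v : ℕ) (B : Finset (Finset (Fin v))), k ≤ v ∧ IsSteiner2Design k B ∧
      ∃ φ : G →* Equiv.Perm (Fin v), Function.Injective φ ∧
        ∀ g : G, B.image (fun b => b.image (φ g)) = B := by
  intro k hk G _ _
  obtain ⟨v, B, hv, h1, h2, φ, h3, h4⟩ := H4DF.embed k (by omega) G
  exact ⟨v, B, hv, ⟨h1, h2⟩, φ, h3, h4⟩

end Pool.Agent.Results.MP_3d715f_co.Subgroup
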